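import Pool.Agent.helper90.IV.Spec

/-!
# MP_26dbae_co, module CMB

Combination of the alternatives on `W` of the elements `a i` of a family which agrees with `x₀` on `B`
to alternatives of `x₀` on `W ∪ Bᶜ`.
-/

set_option autoImplicit false

open scoped BigOperators

namespace Pool.Agent.helper36.IV

open Pool.Agent.IV Pool.Agent.helper23.TH Pool.Agent.KS

noncomputable section

open Classical

section small

variable {I : Type} [Fintype I] {V K : Type} (T : Tr I) (lam : Fin 2 → V → V → K)
  (gh : T.R → Option I) (W : Finset I) (y : T.R → V) (x : I → V)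

theorem mem_tkW (t : Tk V K) : t ∈ tkW T lam W y x ↔
    (∃ i ∈ W, (Sum.inl (x i) : Tk V K) = t) ∨
      ∃ l e, T.tc W e ∧ (Sum.inr (l, T.col lam l x y e) : Tk V K) = t := by
  unfold tkW
  simp only [Finset.mem_union, Finset.mem_image, Finset.mem_filter, Finset.mem_univ, true_and,
    Prod.exists]

theorem mem_tkL (t : Tk V K) : t ∈ tkL T lam gh W y x ↔
    (∃ i ∈ W, (Sum.inl (x i) : Tk V K) = t) ∨
      ∃ l e, (T.tc W e ∧ lve T gh e) ∧ (Sum.inr (l, T.col lam l x y e) : Tk V K) = t := by
  unfold tkL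
  simp only [Finset.mem_union, Finset.mem_image, Finset.mem_filter, Finset.mem_univ, true_and,
    Prod.exists]

theorem mem_tkF (t : Tk V K) : t ∈ tkF T lam gh y x ↔
    (∃ i, (Sum.inl (Sum.elim x y i) : Tk V K) = t) ∨
      ∃ l e, lve T gh e ∧ (Sum.inr (l, T.col lam l x y e) : Tk V K) = t := by
  unfold tkF
  simp only [Finset.mem_union, Finset.mem_image, Finset.mem_filter, Finset.mem_univ, true_and,
    Prod.exists]

theorem card_fe (p : Fin 2 × T.Ed → Prop) [DecidablePred p] :
    (Finset.univ.filter p).card ≤ 2 * Fintype.card T.Ed := by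
  refine (Finset.card_le_univ _).trans ?_
  rw [Fintype.card_prod, Fintype.card_fin]

theorem card_tkW : (tkW T lam W y x).card ≤ TB T := by
  unfold tkW TB
  refine (Finset.card_union_le _ _).trans ?_
  have h1 := (Finset.card_image_le (s := W) (f := fun i => (Sum.inl (x i) : Tk V K))).trans
    (Finset.card_le_univ W)
  have h2 := (Finset.card_image_le (s := Finset.univ.filter fun p : Fin 2 × T.Ed => T.tc W p.2)
    (f := fun p => (Sum.inr (p.1, T.col lam p.1 x y p.2) : Tk V K))).trans
    (card_fe T fun p => T.tc W p.2)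
  omega

theorem card_tkL : (tkL T lam gh W y x).card ≤ TB T := by
  unfold tkL TB
  refine (Finset.card_union_le _ _).trans ?_
  have h1 := (Finset.card_image_le (s := W) (f := fun i => (Sum.inl (x i) : Tk V K))).trans
    (Finset.card_le_univ W)
  have h2 : ((Finset.univ.filter fun p : Fin 2 × T.Ed => T.tc W p.2 ∧ lve T gh p.2).image
      fun p => (Sum.inr (p.1, T.col lam p.1 x y p.2) : Tk V K)).card ≤ 2 * Fintype.card T.Ed :=
    Finset.card_image_le.trans (card_fe T _)
  omega

theorem card_tkF : (tkF T lam gh y x).card ≤ TB T := by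
  unfold tkF TB
  refine (Finset.card_union_le _ _).trans ?_
  have h1 := Finset.card_image_le (s := (Finset.univ : Finset (I ⊕ T.R)))
    (f := fun t : I ⊕ T.R => (Sum.inl (Sum.elim x y t) : Tk V K))
  rw [Finset.card_univ, Fintype.card_sum] at h1
  have h2 := (Finset.card_image_le
    (s := Finset.univ.filter fun p : Fin 2 × T.Ed => lve T gh p.2)
    (f := fun p => (Sum.inr (p.1, T.col lam p.1 x y p.2) : Tk V K))).trans
    (card_fe T fun p => lve T gh p.2)
  omega

end small

section main

variable {I : Type} [Fintype I] {V K : Type} {T : Tr I} {lam : Fin 2 → V → V → K}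
  {gh : T.R → Option I} {W B : Finset I} {y : T.R → V} {A : V → V → Prop} {s : ℕ}

/-- the live edge which replaces an edge not touching `W` -/
theorem repl (hP : PrE A lam) (hG : GI T s gh W) {a z : I → V} (hz : ∀ i, i ∉ W → z i = a i)
    (hom : T.hom A a y) (hg : ∀ r w, gh r = some w → y r = a w) (e : T.Ed) (he : ¬ T.tc W e) :
    ∃ e' : T.Ed, lve T gh e' ∧ (∀ l, T.col lam l z y e = T.col lam l a y e') ∧
      (∀ U : Finset I, (∀ i ∈ U, i ∉ W) → T.tc U e → T.tc U e') ∧
      (e' = e ∨ ∃ (r : T.R) (w : I), e = .inr r ∧ gh r = some w ∧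
        ∃ q : {q : I × I // T.par q.1 = some q.2}, e' = .inl q ∧
          (q.1 = (r.1, w) ∨ q.1 = (w, r.1))) := by
  rcases e with q | r
  · have h1 : q.1.1 ∉ W ∧ q.1.2 ∉ W := by
      constructor
      · intro h; exact he (Or.inl h)
      · intro h; exact he (Or.inr h)
    refine ⟨.inl q, trivial, ?_, fun U _ h => h, Or.inl rfl⟩
    intro l
    simp only [Tr.col]
    rw [hz _ h1.1, hz _ h1.2]
  · have h1 : r.1 ∉ W := he
    cases hr : gh r with
    | none =>
      refine ⟨.inr r, hr, ?_, fun U _ h => h, Or.inl rfl⟩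
      intro l
      simp only [Tr.col]
      rw [hz _ h1]
    | some w =>
      rcases hG.gv r w hr with h2 | h2
      · refine ⟨.inl ⟨(r.1, w), h2⟩, trivial, ?_, ?_, Or.inr ⟨r, w, rfl, hr, ⟨(r.1, w), h2⟩, rfl,
          Or.inl rfl⟩⟩
        · intro l
          simp only [Tr.col]
          rw [hz _ h1, hg r w hr]
        · intro U _ h
          exact Or.inl h
      · refine ⟨.inl ⟨(w, r.1), h2⟩, trivial, ?_, ?_, Or.inr ⟨r, w, rfl, hr, ⟨(w, r.1), h2⟩, rfl,
          Or.inr rfl⟩⟩
        · intro l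
          simp only [Tr.col]
          rw [hz _ h1, hg r w hr]
          exact (hP.csymm l _ _ (hom.1 _ _ h2)).symm
        · intro U _ h
          exact Or.inr h

/-- the colours of two different edges not touching `W` are different -/
theorem repl_inj (hP : PrE A lam) (hG : GI T s gh W) {a z : I → V} (hz : ∀ i, i ∉ W → z i = a i)
    (hom : T.hom A a y) (hg : ∀ r w, gh r = some w → y r = a w) (hN : Nice T lam gh a y)
    (l : Fin 2) (e₁ e₂ : T.Ed) (h₁ : ¬ T.tc W e₁) (h₂ : ¬ T.tc W e₂)
    (h : T.col lam l z y e₁ = T.col lam l z y e₂) : e₁ = e₂ := by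
  obtain ⟨f₁, hl₁, hc₁, -, hf₁⟩ := repl (lam := lam) hP hG hz hom hg e₁ h₁
  obtain ⟨f₂, hl₂, hc₂, -, hf₂⟩ := repl (lam := lam) hP hG hz hom hg e₂ h₂
  have hf : f₁ = f₂ := by
    refine hN.2 l f₁ f₂ hl₁ hl₂ ?_
    rw [← hc₁ l, ← hc₂ l, h]
  subst hf
  rcases hf₁ with hf₁ | ⟨r₁, w₁, he₁, hr₁, q₁, hq₁, hp₁⟩
  · rcases hf₂ with hf₂ | ⟨r₂, w₂, he₂, hr₂, q₂, hq₂, hp₂⟩
    · rw [← hf₁, ← hf₂]
    · exfalso
      apply h₁
      rw [← hf₁, hq₂]
      have hw := hG.mem _ _ hr₂
      rcases hp₂ with hp | hp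
      · right; rw [hp]; exact hw
      · left; rw [hp]; exact hw
  · rcases hf₂ with hf₂ | ⟨r₂, w₂, he₂, hr₂, q₂, hq₂, hp₂⟩
    · exfalso
      apply h₂
      rw [← hf₂, hq₁]
      have hw := hG.mem _ _ hr₁
      rcases hp₁ with hp | hp
      · right; rw [hp]; exact hw
      · left; rw [hp]; exact hw
    · have hq : q₁ = q₂ := by
        have : (Sum.inl q₁ : T.Ed) = Sum.inl q₂ := by rw [← hq₁, ← hq₂]
        exact Sum.inl.inj this
      subst hq
      have hw₁ := hG.mem _ _ hr₁
      have hw₂ := hG.mem _ _ hr₂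
      subst he₁
      subst he₂
      have hn₁ : r₁.1 ∉ W := h₁
      have hn₂ : r₂.1 ∉ W := h₂
      have hw : w₁ = w₂ := by
        rcases hp₁ with hp₁ | hp₁ <;> rcases hp₂ with hp₂ | hp₂ <;> rw [hp₁] at hp₂ <;>
          rw [Prod.mk.injEq] at hp₂
        · exact hp₂.2
        · exfalso
          rw [hp₂.1] at hn₁
          exact hn₁ hw₂
        · exfalso
          rw [← hp₂.1] at hn₂
          exact hn₂ hw₁
        · exact hp₂.1
      subst hw
      rw [hG.once _ _ _ hr₁ hr₂]

/-- (1) -/
theorem tk_sub (hP : PrE A lam) (hG : GI T s gh W) (hB : W ⊆ B) {a z : I → V}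
    (hz : ∀ i, i ∉ W → z i = a i)
    (hom : T.hom A a y) (hg : ∀ r w, gh r = some w → y r = a w) :
    tkW T lam (W ∪ Bᶜ) y z ⊆ tkW T lam W y z ∪ tkL T lam gh Bᶜ y a := by
  intro t ht
  have hd : ∀ i ∈ Bᶜ, i ∉ W := fun i hi hw => (Finset.mem_compl.1 hi) (hB hw)
  rw [Finset.mem_union, mem_tkW, mem_tkL]
  rcases (mem_tkW T lam _ y z t).1 ht with ⟨i, hi, rfl⟩ | ⟨l, e, he, rfl⟩
  · rcases Finset.mem_union.1 hi with hi | hi
    · exact Or.inl (Or.inl ⟨i, hi, rfl⟩)
    · refine Or.inr (Or.inl ⟨i, hi, ?_⟩)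
      rw [hz i (hd i hi)]
  · by_cases hW : T.tc W e
    · exact Or.inl (Or.inr ⟨l, e, hW, rfl⟩)
    · obtain ⟨f, hl, hc, hU, -⟩ := repl (lam := lam) hP hG hz hom hg e hW
      refine Or.inr (Or.inr ⟨l, f, ⟨hU _ hd ?_, hl⟩, ?_⟩)
      · rcases e with q | r
        · rcases he with he | he
          · rcases Finset.mem_union.1 he with h | h
            · exact absurd (Or.inl h) hW
            · exact Or.inl h
          · rcases Finset.mem_union.1 he with h | h
            · exact absurd (Or.inr h) hW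
            · exact Or.inr h
        · rcases Finset.mem_union.1 he with h | h
          · exact absurd h hW
          · exact h
      · rw [hc l]

/-- (2) -/
theorem tk_dis (hG : GI T s gh W) (hB : W ⊆ B) {a x₀ : I → V}
    (hg : ∀ r w, gh r = some w → y r = a w) (hN : Nice T lam gh a y)
    (hb : ∀ i ∈ B, a i = x₀ i)
    (hd : Disjoint (tkL T lam gh Bᶜ y a) (tkL T lam gh Bᶜ y x₀)) :
    Disjoint (tkL T lam gh Bᶜ y a) (tkF T lam gh y x₀) := by
  rw [Finset.disjoint_left]
  intro t ht ht'
  rcases (mem_tkF T lam gh y x₀ t).1 ht' with ⟨i, hi⟩ | ⟨l, e, he, hi⟩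
  · -- a value
    have key : ∃ u ∈ Bᶜ, a u = Sum.elim x₀ y i := by
      rcases (mem_tkL T lam gh _ y a t).1 ht with ⟨u, hu, h⟩ | ⟨l, e, -, h⟩
      · refine ⟨u, hu, ?_⟩
        rw [← hi] at h
        exact Sum.inl.inj h
      · rw [← hi] at h
        exact absurd h (by simp)
    obtain ⟨u, hu, hau⟩ := key
    have huB : u ∉ B := Finset.mem_compl.1 hu
    rcases i with b | r
    · by_cases hbB : b ∈ B
      · have h1 : a u = a b := by rw [hau, hb b hbB]; rfl
        have h2 := hN.1 (.inl u) (.inl b) trivial trivial h1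
        have h3 : u = b := Sum.inl.inj h2
        rw [h3] at huB
        exact huB hbB
      · refine Finset.disjoint_left.1 hd ht ?_
        rw [mem_tkL]
        exact Or.inl ⟨b, Finset.mem_compl.2 hbB, hi⟩
    · cases hr : gh r with
      | none =>
        have h2 := hN.1 (.inl u) (.inr r) trivial hr hau
        exact absurd h2 (by simp)
      | some w =>
        have h1 : a u = a w := by
          rw [← hg r w hr, hau]
          rfl
        have h2 := hN.1 (.inl u) (.inl w) trivial trivial h1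
        have h3 : u = w := Sum.inl.inj h2
        rw [h3] at huB
        exact huB (hB (hG.mem _ _ hr))
  · -- a colour
    by_cases hc : T.tc Bᶜ e
    · refine Finset.disjoint_left.1 hd ht ?_
      rw [mem_tkL]
      exact Or.inr ⟨l, e, ⟨hc, he⟩, hi⟩
    · rcases (mem_tkL T lam gh _ y a t).1 ht with ⟨u, hu, h⟩ | ⟨l', e', he', h⟩
      · rw [← hi] at h
        exact absurd h (by simp)
      · rw [← hi] at h
        have h1 := Sum.inr.inj h
        rw [Prod.mk.injEq] at h1
        obtain ⟨h1, h2⟩ := h1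
        subst h1
        have h3 : T.col lam l' x₀ y e = T.col lam l' a y e := by
          rcases e with q | r
          · have hq : q.1.1 ∈ B ∧ q.1.2 ∈ B := by
              constructor
              · by_contra h
                exact hc (Or.inl (Finset.mem_compl.2 h))
              · by_contra h
                exact hc (Or.inr (Finset.mem_compl.2 h))
            simp only [Tr.col]
            rw [hb _ hq.1, hb _ hq.2]
          · have hq : r.1 ∈ B := by
              by_contra h
              exact hc (Finset.mem_compl.2 h)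
            simp only [Tr.col]
            rw [hb _ hq]
        rw [h3] at h2
        have h4 := hN.2 l' e' e he'.2 he h2
        rw [h4] at he'
        exact hc he'.1

/-- the chosen alternative of `a` is an alternative of `x₀` -/
theorem alt_comb (hP : PrE A lam) (hG : GI T s gh W) (hB : W ⊆ B) {a x₀ z : I → V}
    (hom : T.hom A a y) (hg : ∀ r w, gh r = some w → y r = a w) (hN : Nice T lam gh a y)
    (hb : ∀ i ∈ B, a i = x₀ i)
    (hd : Disjoint (tkL T lam gh Bᶜ y a) (tkL T lam gh Bᶜ y x₀))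
    (hz : Alt T A lam gh W a y z) (hzx : Disjoint (tkW T lam W y z) (tkF T lam gh y x₀)) :
    Alt T A lam gh (W ∪ Bᶜ) x₀ y z := by
  have hfr := Finset.disjoint_left.1 hz.fresh
  refine ⟨?_, hz.hom, ?_, ?_, ?_⟩
  · intro i hi
    have h1 : i ∉ W := fun h => hi (Finset.mem_union_left _ h)
    have h2 : i ∈ B := by
      by_contra h
      exact hi (Finset.mem_union_right _ (Finset.mem_compl.2 h))
    rw [hz.eq i h1, hb i h2]
  · -- values
    have key : ∀ w ∈ W, ∀ w', w' ∉ W → z w ≠ z w' := by
      intro w hw w' hw' h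
      refine hfr (a := Sum.inl (z w)) ?_ ?_
      · rw [mem_tkW]; exact Or.inl ⟨w, hw, rfl⟩
      · rw [mem_tkF]
        refine Or.inl ⟨.inl w', ?_⟩
        rw [h, hz.eq w' hw']
        rfl
    intro w _ w' _ h
    by_cases h1 : w ∈ W <;> by_cases h2 : w' ∈ W
    · exact hz.inj w h1 w' h2 h
    · exact absurd h (key w h1 w' h2)
    · exact absurd h.symm (key w' h2 w h1)
    · rw [hz.eq w h1, hz.eq w' h2] at h
      exact Sum.inl.inj (hN.1 (.inl w) (.inl w') trivial trivial h)
  · -- colours
    have key : ∀ l e e', T.tc W e → ¬ T.tc W e' → T.col lam l z y e ≠ T.col lam l z y e' := by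
      intro l e e' he he' h
      obtain ⟨f, hl, hc, -, -⟩ := repl (lam := lam) hP hG hz.eq hom hg e' he'
      refine hfr (a := Sum.inr (l, T.col lam l z y e)) ?_ ?_
      · rw [mem_tkW]; exact Or.inr ⟨l, e, he, rfl⟩
      · rw [mem_tkF]
        refine Or.inr ⟨l, f, hl, ?_⟩
        rw [h, hc l]
    intro l e e' _ _ h
    by_cases h1 : T.tc W e <;> by_cases h2 : T.tc W e'
    · exact hz.cinj l e e' h1 h2 h
    · exact absurd h (key l e e' h1 h2)
    · exact absurd h.symm (key l e' e h2 h1)
    · exact repl_inj hP hG hz.eq hom hg hN l e e' h1 h2 h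
  · exact Disjoint.mono_left (tk_sub hP hG hB hz.eq hom hg)
      (Finset.disjoint_union_left.2 ⟨hzx, tk_dis hG hB hg hN hb hd⟩)

end main

theorem CMB (hSEL : SEL_stmt) : CMB_stmt := by
  intro I _ T s P P' V K _ A lam gh W B y x₀ a hP hG hB hPP hx₀ ha hb hN hR hdis hdx
  have ha' : ∀ j, T.hom A (a j) y ∧ ∀ r w, gh r = some w → y r = a j w := by
    intro j
    have := ha j
    unfold Hm at this
    rw [Finset.mem_filter] at this
    exact this.2
  choose z hzA hzD using hR
  have hFb : (((Finset.univ : Finset (Fin P')).biUnion fun i' => tkL T lam gh Bᶜ y (a i')) ∪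
      tkF T lam gh y x₀).card ≤ (P' + 1) * TB T := by
    refine (Finset.card_union_le _ _).trans ?_
    have h1 : ((Finset.univ : Finset (Fin P')).biUnion fun i' => tkL T lam gh Bᶜ y (a i')).card ≤
        P' * TB T := by
      refine (Finset.card_biUnion_le).trans ?_
      refine (Finset.sum_le_card_nsmul _ _ (TB T) fun i _ => card_tkL T lam gh _ y (a i)).trans ?_
      rw [Finset.card_univ, Fintype.card_fin, smul_eq_mul]
    have h2 := card_tkF T lam gh y x₀
    rw [add_mul, one_mul]
    omega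
  obtain ⟨J, hJ1, hJ2⟩ := hSEL (Tk V K) P' P ((P' + 1) * TB T) (TB T)
    (fun i j => tkW T lam W y (z i j))
    (fun _ => ((Finset.univ : Finset (Fin P')).biUnion fun i' => tkL T lam gh Bᶜ y (a i')) ∪
      tkF T lam gh y x₀)
    (fun i j => card_tkW T lam W y (z i j)) (fun i j j' h => hzD i j j' h) (fun _ => hFb) hPP
  have h1 : ∀ i, Disjoint (tkW T lam W y (z i (J i))) (tkF T lam gh y x₀) := fun i =>
    (Finset.disjoint_union_right.1 (hJ1 i)).2
  have h2 : ∀ i i', Disjoint (tkW T lam W y (z i (J i))) (tkL T lam gh Bᶜ y (a i')) := fun i i' =>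
    ((Finset.disjoint_biUnion_right _ _ _).1 (Finset.disjoint_union_right.1 (hJ1 i)).1) i'
      (Finset.mem_univ i')
  refine ⟨fun i => z i (J i), ?_, ?_⟩
  · intro i
    exact alt_comb hP hG hB (ha' i).1 (ha' i).2 (hN i) (hb i) (hdx i) (hzA i (J i)) (h1 i)
  · intro i i' hii
    have s1 := tk_sub (lam := lam) hP hG hB (hzA i (J i)).eq (ha' i).1 (ha' i).2
    have s2 := tk_sub (lam := lam) hP hG hB (hzA i' (J i')).eq (ha' i').1 (ha' i').2
    refine Disjoint.mono s1 s2 ?_
    rw [Finset.disjoint_union_left, Finset.disjoint_union_right, Finset.disjoint_union_right]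
    exact ⟨⟨hJ2 i i' hii, h2 i i'⟩, (h2 i' i).symm, hdis i i' hii⟩

end

end Pool.Agent.helper36.IV
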