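import Pool.Agent.helper90.IV.Spec

/-! Row IV:STP: one step of the light machine. -/

set_option autoImplicit false

open scoped BigOperators

namespace Pool.Agent.helper36.IV

open Pool.Agent.IV Pool.Agent.helper23.TH Pool.Agent.KS

noncomputable section

open Classical

theorem STP (hS : ST1_stmt) (hG : GHO_stmt) (hT : TRF_stmt) : STP_stmt := by
  intro I _ T s Ch P' κ KE hTOK hκ
  obtain ⟨P, hP⟩ := hS I T s Ch P' κ KE hTOK hκ
  refine ⟨P, ?_⟩
  intro η hη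
  obtain ⟨η₁, ε₁, K₁, hη₁, hε₁, h⟩ := hP η hη
  have hκ0 : (0 : ℝ) < κ ^ Fintype.card T.R := pow_pos (by linarith) _
  refine ⟨η₁ / κ ^ Fintype.card T.R, ε₁, K₁, div_pos hη₁ hκ0, hε₁, ?_⟩
  intro V K _ A lam d ε K₀ hE hε hK gh W hW hst
  obtain ⟨B, hWB, hB, hdeg, hcard⟩ := h V K A lam d ε K₀ hE hε hK gh W hW hst
  obtain ⟨gh', hGI', hext, hnew⟩ := hG I T s gh W B hTOK hst.1 hWB hdeg
  refine ⟨W ∪ Bᶜ, gh', ?_, ?_⟩
  · rw [Finset.ssubset_iff_of_subset Finset.subset_union_left]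
    obtain ⟨u, hu⟩ : ∃ u, u ∉ B := by
      by_contra hcon
      push Not at hcon
      exact hB (Finset.eq_univ_iff_forall.2 hcon)
    exact ⟨u, Finset.mem_union_right _ (Finset.mem_compl.2 hu), fun h => hu (hWB h)⟩
  · exact hT I T s P' V K A lam gh gh' (W ∪ Bᶜ) d κ η₁ hE.pr hE.d1 hE.k1 hη₁ hE.lo hE.hi hst.1.gv
      hGI' hext hnew hcard

end

end Pool.Agent.helper36.IV
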